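import Pool.Agent.H61.SC.Stmts
import Pool.Agent.H61.SC.Ex

/-!
# SC: one step of the recursion over scales (STP)
-/

set_option autoImplicit false

namespace Pool.SC.STP43

open Finset

theorem mem_box (R : Rect) (z1 z2 : ℤ) (v : V) :
    v ∈ box R z1 z2 ↔ (v.1, v.2.1) ∈ R.cols ∧ z1 ≤ v.2.2 ∧ v.2.2 ≤ z2 := by
  unfold box Rect.cols
  simp only [Finset.mem_product, Finset.mem_Ico, Finset.mem_Icc]
  tauto

theorem mem_eds (R : Rect) (z1 z2 : ℤ) (e : Ed) :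
    e ∈ eds R z1 z2 ↔ hd e ∈ box R z1 z2 ∧ tl e ∈ box R z1 z2 := by
  unfold eds hd
  simp only [Finset.mem_filter, Finset.mem_product, Finset.mem_univ, true_and]

theorem eds_mono {Q R : Rect} (h : Q.cols ⊆ R.cols) (z1 z2 : ℤ) :
    eds Q z1 z2 ⊆ eds R z1 z2 := by
  intro e he
  rw [mem_eds, mem_box, mem_box] at he ⊢
  exact ⟨⟨h he.1.1, he.1.2⟩, ⟨h he.2.1, he.2.2⟩⟩

theorem cuts_mono {Q R : Rect} (h : Q.cols ⊆ R.cols) (z1 z2 : ℤ) (S : Set V) :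
    cuts Q z1 z2 S ⊆ cuts R z1 z2 S := by
  classical
  exact Finset.filter_subset_filter _ (eds_mono h z1 z2)

theorem eds_disj {Q R : Rect} (h : Disjoint Q.cols R.cols) {z1 z2 : ℤ} {e : Ed}
    (he : e ∈ eds Q z1 z2) : e ∉ eds R z1 z2 := by
  intro he'
  rw [mem_eds, mem_box] at he he'
  exact (Finset.disjoint_left.1 h he.1.1) he'.1.1

theorem adm_mono {Q R : Rect} (h : Q.cols ⊆ R.cols) {z1 z2 : ℤ} {S : Set V}
    (hS : adm R z1 z2 S) : adm Q z1 z2 S := fun v hv => hS v (h hv)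

/-- a function of the edges in `G` has no derivative outside of `G` -/
theorem gr_out {G : Finset Ed} {f : Finset Ed → ℝ} (hf : ∀ T, f (T ∩ G) = f T) {e : Ed}
    (he : e ∉ G) (T : Finset Ed) : gr e f T = 0 := by
  unfold gr
  rw [← hf (insert e T), ← hf (T.erase e)]
  have : insert e T ∩ G = T.erase e ∩ G := by
    ext x
    simp only [Finset.mem_inter, Finset.mem_insert, Finset.mem_erase]
    constructor
    · rintro ⟨h1 | h1, h2⟩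
      · exact (he (h1 ▸ h2)).elim
      · exact ⟨⟨fun e0 => he (e0 ▸ h2), h1⟩, h2⟩
    · rintro ⟨⟨_, h1⟩, h2⟩
      exact ⟨Or.inr h1, h2⟩
  rw [this, sub_self]

/-- derivatives of a sum of functions of disjoint sets of edges -/
theorem gr_sum {ι : Type} (I : Finset ι) (G : ι → Finset Ed) (g : ι → Finset Ed → ℝ)
    (hg : ∀ i ∈ I, ∀ T, g i (T ∩ G i) = g i T)
    (hd : ∀ i ∈ I, ∀ j ∈ I, i ≠ j → ∀ e ∈ G i, e ∉ G j) (e : Ed) (T : Finset Ed) :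
    gr e (fun T => ∑ i ∈ I, g i T) T ^ 2 ≤ ∑ i ∈ I, gr e (g i) T ^ 2 := by
  have e1 : gr e (fun T => ∑ i ∈ I, g i T) T = ∑ i ∈ I, gr e (g i) T := by
    simp only [gr, Finset.sum_sub_distrib]
  rw [e1]
  by_cases h : ∃ i ∈ I, e ∈ G i
  · obtain ⟨i, hi, he⟩ := h
    have h0 : ∀ j ∈ I, j ≠ i → gr e (g j) T = 0 := fun j hj hji =>
      gr_out (hg j hj) (hd i hi j hj (Ne.symm hji) e he) T
    rw [Finset.sum_eq_single i h0 (fun h => (h hi).elim)]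
    exact Finset.single_le_sum (f := fun i => gr e (g i) T ^ 2) (fun j _ => sq_nonneg _) hi
  · push Not at h
    have h0 : ∀ j ∈ I, gr e (g j) T = 0 := fun j hj => gr_out (hg j hj) (h j hj) T
    rw [Finset.sum_eq_zero h0]
    simpa using Finset.sum_nonneg fun j _ => sq_nonneg (gr e (g j) T)

theorem gr_sum_nonneg {ι : Type} (I : Finset ι) (g : ι → Finset Ed → ℝ) (e : Ed)
    (T : Finset Ed) (h : ∀ i ∈ I, 0 ≤ gr e (g i) T) :
    0 ≤ gr e (fun T => ∑ i ∈ I, g i T) T := by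
  have e1 : gr e (fun T => ∑ i ∈ I, g i T) T = ∑ i ∈ I, gr e (g i) T := by
    simp only [gr, Finset.sum_sub_distrib]
  rw [e1]
  exact Finset.sum_nonneg h

theorem gr_sum_total {ι : Type} (I : Finset ι) (G : ι → Finset Ed) (g : ι → Finset Ed → ℝ)
    (B : ι → ℝ) (hg : ∀ i ∈ I, ∀ T, g i (T ∩ G i) = g i T)
    (hd : ∀ i ∈ I, ∀ j ∈ I, i ≠ j → ∀ e ∈ G i, e ∉ G j) (F T : Finset Ed)
    (hB : ∀ i ∈ I, ∑ e ∈ F \ T, gr e (g i) T ^ 2 ≤ B i) :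
    ∑ e ∈ F \ T, gr e (fun T => ∑ i ∈ I, g i T) T ^ 2 ≤ ∑ i ∈ I, B i := by
  calc ∑ e ∈ F \ T, gr e (fun T => ∑ i ∈ I, g i T) T ^ 2
      ≤ ∑ e ∈ F \ T, ∑ i ∈ I, gr e (g i) T ^ 2 :=
        Finset.sum_le_sum fun e _ => gr_sum I G g hg hd e T
    _ = ∑ i ∈ I, ∑ e ∈ F \ T, gr e (g i) T ^ 2 := Finset.sum_comm
    _ ≤ _ := Finset.sum_le_sum hB

theorem log_card {ι : Type} {β : ι → Type} (I : Finset ι) (J : ∀ i, Finset (β i)) (B : ℝ)
    (hB : 0 ≤ B) (hJ : ∀ i ∈ I, Real.log ((J i).card : ℝ) ≤ B) :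
    Real.log (((I.sigma J).card : ℕ) : ℝ) ≤ Real.log (I.card : ℝ) + B := by
  rcases Nat.eq_zero_or_pos (I.sigma J).card with h0 | h0
  · rw [h0, Nat.cast_zero, Real.log_zero]
    have : (0 : ℝ) ≤ Real.log (I.card : ℝ) := Real.log_natCast_nonneg _
    linarith
  have hI : 0 < I.card := by
    rcases Nat.eq_zero_or_pos I.card with h | h
    · rw [Finset.card_eq_zero] at h
      subst h
      simp at h0
    · exact h
  have h1 : ∀ i ∈ I, ((J i).card : ℝ) ≤ Real.exp B := by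
    intro i hi
    rcases Nat.eq_zero_or_pos (J i).card with h | h
    · rw [h, Nat.cast_zero]
      exact (Real.exp_pos _).le
    · have := hJ i hi
      rwa [Real.log_le_iff_le_exp (by exact_mod_cast h)] at this
  have h2 : (((I.sigma J).card : ℕ) : ℝ) ≤ I.card * Real.exp B := by
    rw [Finset.card_sigma]
    push_cast
    calc ∑ i ∈ I, ((J i).card : ℝ) ≤ ∑ _i ∈ I, Real.exp B := Finset.sum_le_sum h1
      _ = _ := by rw [Finset.sum_const, nsmul_eq_mul]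
  calc Real.log (((I.sigma J).card : ℕ) : ℝ) ≤ Real.log (I.card * Real.exp B) :=
        Real.log_le_log (by exact_mod_cast h0) h2
    _ = _ := by
      rw [Real.log_mul (by exact_mod_cast hI.ne') (Real.exp_pos _).ne', Real.log_exp]


/-- the inner rectangle -/
def Rin (w l : ℕ) (q : ℕ × ℕ × ℕ × ℕ) : Rect :=
  ⟨q.1, q.2.2.1, w - q.1 - q.2.1, l - q.2.2.1 - q.2.2.2⟩

/-- the condition on the cut over a rectangle of the decomposition -/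
def PP (R' : Rect) (Tr : Set V) (Q : Rect) : Set V → Prop := fun S => Q = R' → trc R' Tr S

theorem PP_self (R' : Rect) (Tr : Set V) : PP R' Tr R' = trc R' Tr := by
  funext S
  exact propext ⟨fun h => h rfl, fun h _ => h⟩

theorem PP_ne {R' Q : Rect} (Tr : Set V) (h : Q ≠ R') : PP R' Tr Q = fun _ => True := by
  funext S
  exact propext ⟨fun _ => trivial, fun _ h' => (h h').elim⟩

/-- the data of a decomposition -/
structure Dec (w l s : ℕ) (q : ℕ × ℕ × ℕ × ℕ) (Rs : Finset Rect) : Prop where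
  cell : ∀ Q ∈ Rs, Q.cols ⊆ (sq w l).cols ∧ s ≤ Q.w ∧ Q.w < 2 * s ∧ s ≤ Q.l ∧ Q.l < 2 * s ∧
      Disjoint Q.cols (Rin w l q).cols
  disj : ∀ Q ∈ Rs, ∀ Q' ∈ Rs, Q ≠ Q' → Disjoint Q.cols Q'.cols
  area : (∑ Q ∈ Rs, Q.w * Q.l) + (Rin w l q).w * (Rin w l q).l = w * l
  num : Rs.card * s ≤ 4 * (w + l)

theorem Rin_sub {w l s : ℕ} {q : ℕ × ℕ × ℕ × ℕ} (_hw : 8 * s ≤ w) (_hl : 8 * s ≤ l)
    (_h1 : q.1 < 2 * s) (_h2 : q.2.1 < 2 * s) (_h3 : q.2.2.1 < 2 * s) (_h4 : q.2.2.2 < 2 * s) :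
    (Rin w l q).cols ⊆ (sq w l).cols := by
  intro c hc
  unfold Rin Rect.cols at hc
  unfold sq Rect.cols
  simp only [Finset.mem_product, Finset.mem_Ico] at hc ⊢
  omega

theorem Rin_nonempty {w l s : ℕ} {q : ℕ × ℕ × ℕ × ℕ} (_hs : 1 ≤ s) (hw : 8 * s ≤ w)
    (hl : 8 * s ≤ l)
    (h1 : q.1 < 2 * s) (h2 : q.2.1 < 2 * s) (h3 : q.2.2.1 < 2 * s) (h4 : q.2.2.2 < 2 * s) :
    ((q.1 : ℤ), (q.2.2.1 : ℤ)) ∈ (Rin w l q).cols := by
  unfold Rin Rect.cols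
  simp only [Finset.mem_product, Finset.mem_Ico]
  omega

section Main

variable {a b : ℝ} {w l s H : ℕ} {q : ℕ × ℕ × ℕ × ℕ} {Rs : Finset Rect}

/-- the rectangles of the decomposition are disjoint -/
theorem dec_disj (hD : Dec w l s q Rs) : ∀ Q ∈ insert (Rin w l q) Rs,
    ∀ Q' ∈ insert (Rin w l q) Rs, Q ≠ Q' → Disjoint Q.cols Q'.cols := by
  intro Q hQ Q' hQ' hne
  rw [Finset.mem_insert] at hQ hQ'
  rcases hQ with rfl | hQ
  · rcases hQ' with rfl | hQ'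
    · exact (hne rfl).elim
    · exact (hD.cell Q' hQ').2.2.2.2.2.symm
  · rcases hQ' with rfl | hQ'
    · exact (hD.cell Q hQ).2.2.2.2.2
    · exact hD.disj Q hQ Q' hQ' hne

theorem dec_notMem (hD : Dec w l s q Rs) (hne : (Rin w l q).cols.Nonempty) :
    Rin w l q ∉ Rs := by
  intro h
  have h1 := (hD.cell _ h).2.2.2.2.2
  obtain ⟨c, hc⟩ := hne
  exact Finset.disjoint_left.1 h1 hc hc


open Classical in
/-- the bound for the number of cut edges of a competitor -/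
noncomputable def AQ (R' : Rect) (AR : ℝ) (Q : Rect) : ℝ :=
  if Q = R' then AR else (Q.w : ℝ) * Q.l

/-- the function of the decomposition -/
noncomputable def YY (a b : ℝ) (w l H : ℕ) (q : ℕ × ℕ × ℕ × ℕ) (Rs : Finset Rect) (Tr : Set V)
    (T : Finset Ed) : ℝ :=
  ∑ Q ∈ insert (Rin w l q) Rs, flowC a b Q 0 (H : ℤ) (PP (Rin w l q) Tr Q) T

theorem comp_ex (hFLT : S_FLT) (hH : 1 ≤ H) {Tr : Set V} {AR : ℝ}
    (hTr : ∃ S0 : Set V, adm (Rin w l q) 0 (H : ℤ) S0 ∧ trc (Rin w l q) Tr S0 ∧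
      ((cuts (Rin w l q) 0 (H : ℤ) S0).card : ℝ) ≤ AR) (Q : Rect) :
    ∃ S0 : Set V, adm Q 0 (H : ℤ) S0 ∧ PP (Rin w l q) Tr Q S0 ∧
      ((cuts Q 0 (H : ℤ) S0).card : ℝ) ≤ AQ (Rin w l q) AR Q := by
  by_cases h : Q = Rin w l q
  · subst h
    obtain ⟨S0, h1, h2, h3⟩ := hTr
    refine ⟨S0, h1, ?_, ?_⟩
    · rw [PP_self]
      exact h2
    · rw [AQ, if_pos rfl]
      exact h3
  · obtain ⟨S0, h1, h2⟩ := hFLT Q 0 (H : ℤ) (by omega)
    refine ⟨S0, h1, ?_, ?_⟩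
    · rw [PP_ne _ h]
      trivial
    · rw [AQ, if_neg h]
      exact h2

theorem flow_eq (Q : Rect) {Tr : Set V} (h : Q ≠ Rin w l q) :
    flowC a b Q 0 (H : ℤ) (PP (Rin w l q) Tr Q) = flow a b Q 0 (H : ℤ) := by
  rw [PP_ne _ h]
  rfl

/-- derivatives of the function of the decomposition -/
theorem yy_gr (hCUT : S_CUT) (hFLT : S_FLT) (ha : 0 < a) (hab : a < b) (hH : 1 ≤ H)
    (hD : Dec w l s q Rs) {Tr : Set V} {AR : ℝ}
    (hTr : ∃ S0 : Set V, adm (Rin w l q) 0 (H : ℤ) S0 ∧ trc (Rin w l q) Tr S0 ∧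
      ((cuts (Rin w l q) 0 (H : ℤ) S0).card : ℝ) ≤ AR) :
    (∀ T e, 0 ≤ gr e (YY a b w l H q Rs Tr) T) ∧
    ∀ F T : Finset Ed, ∑ e ∈ F \ T, gr e (YY a b w l H q Rs Tr) T ^ 2 ≤
      ∑ Q ∈ insert (Rin w l q) Rs, (b - a) ^ 2 * (b / a * AQ (Rin w l q) AR Q) := by
  have hc := fun Q => hCUT a b Q 0 (H : ℤ) (PP (Rin w l q) Tr Q) (AQ (Rin w l q) AR Q) ha hab
    (by omega) (comp_ex hFLT hH hTr Q)
  refine ⟨fun T e => ?_, fun F T => ?_⟩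
  · exact gr_sum_nonneg _ _ e T fun Q _ => ((hc Q).2.2.2.2.1 e T).1
  · refine gr_sum_total _ (fun Q => eds Q 0 (H : ℤ)) _ _ ?_ ?_ F T ?_
    · exact fun Q _ T => (hc Q).2.2.2.1 T
    · intro Q hQ Q' hQ' hne e he
      exact eds_disj (dec_disj hD Q hQ Q' hQ' hne) he
    · exact fun Q _ => (hc Q).2.2.2.2.2.2 F T

/-- mean of the function of the decomposition -/
theorem yy_mean (hCUT : S_CUT) (hFLT : S_FLT) (hINV : S_INV) (hREF : S_REF) {p : ℝ}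
    (hp0 : 0 < p) (hp1 : p < 1) (ha : 0 < a) (hab : a < b) (hH : 1 ≤ H) (hs : 1 ≤ s)
    (hw : 8 * s ≤ w) (hl : 8 * s ≤ l) (h1 : q.1 < 2 * s) (h2 : q.2.1 < 2 * s)
    (h3 : q.2.2.1 < 2 * s) (h4 : q.2.2.2 < 2 * s)
    (hD : Dec w l s q Rs) {Tr : Set V} {AR : ℝ}
    (hTr : ∃ S0 : Set V, adm (Rin w l q) 0 (H : ℤ) S0 ∧ trc (Rin w l q) Tr S0 ∧
      ((cuts (Rin w l q) 0 (H : ℤ) S0).card : ℝ) ≤ AR) {E : ℝ}
    (hE : ∀ w l : ℕ, s ≤ w → w < 2 * s → s ≤ l → l < 2 * s →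
      nu p a b H * (w * l) - E ≤ ph p a b w l H) :
    nu p a b H * ((w : ℝ) * l) - Rs.card * E ≤
      ex p (eds (sq w l) 0 (H : ℤ)) (YY a b w l H q Rs Tr) := by
  have hc := fun Q => hCUT a b Q 0 (H : ℤ) (PP (Rin w l q) Tr Q) (AQ (Rin w l q) AR Q) ha hab
    (by omega) (comp_ex hFLT hH hTr Q)
  have hne : (Rin w l q).cols.Nonempty := ⟨_, Rin_nonempty hs hw hl h1 h2 h3 h4⟩
  have hsub := Rin_sub hw hl h1 h2 h3 h4
  have e0 : ex p (eds (sq w l) 0 (H : ℤ)) (YY a b w l H q Rs Tr) =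
      ex p (eds (sq w l) 0 (H : ℤ))
        (flowC a b (Rin w l q) 0 (H : ℤ) (PP (Rin w l q) Tr (Rin w l q))) +
      ∑ Q ∈ Rs, ex p (eds (sq w l) 0 (H : ℤ)) (flowC a b Q 0 (H : ℤ)
        (PP (Rin w l q) Tr Q)) := by
    have : YY a b w l H q Rs Tr = fun T => ∑ Q ∈ insert (Rin w l q) Rs,
        flowC a b Q 0 (H : ℤ) (PP (Rin w l q) Tr Q) T := rfl
    rw [this, ex_finsum, Finset.sum_insert (dec_notMem hD hne)]
  rw [e0]
  have e1 : nu p a b H * ((Rin w l q).w * (Rin w l q).l) ≤ ex p (eds (sq w l) 0 (H : ℤ))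
      (flowC a b (Rin w l q) 0 (H : ℤ) (PP (Rin w l q) Tr (Rin w l q))) := by
    rw [ex_restrict (eds_mono hsub 0 (H : ℤ)) fun T _ => (hc (Rin w l q)).2.2.2.1 T, PP_self]
    obtain ⟨S0, k1, k2, _⟩ := hTr
    refine hREF p a b (Rin w l q) H Tr hp0 hp1 ha hab ?_ ?_ hH ⟨S0, k1, k2⟩
    · show 1 ≤ w - q.1 - q.2.1
      omega
    · show 1 ≤ l - q.2.2.1 - q.2.2.2
      omega
  have e2 : ∀ Q ∈ Rs, nu p a b H * (Q.w * Q.l) - E ≤ ex p (eds (sq w l) 0 (H : ℤ))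
      (flowC a b Q 0 (H : ℤ) (PP (Rin w l q) Tr Q)) := by
    intro Q hQ
    have hQne : Q ≠ Rin w l q := fun h => dec_notMem hD hne (h ▸ hQ)
    obtain ⟨k1, k2, k3, k4, k5, -⟩ := hD.cell Q hQ
    have k6 := hINV p a b Q 0 H (eds (sq w l) 0 (H : ℤ)) hp0 hp1 ha hab hH
      (by rw [zero_add]; exact eds_mono k1 0 (H : ℤ))
    rw [zero_add] at k6
    rw [flow_eq Q hQne, k6]
    exact hE Q.w Q.l k2 k3 k4 k5
  have e3 := Finset.sum_le_sum e2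
  rw [Finset.sum_sub_distrib, Finset.sum_const, nsmul_eq_mul, ← Finset.mul_sum] at e3
  have e4 : (∑ Q ∈ Rs, (Q.w : ℝ) * Q.l) + ((Rin w l q).w : ℝ) * (Rin w l q).l = (w : ℝ) * l := by
    have := hD.area
    exact_mod_cast this
  have e5 : nu p a b H * ((w : ℝ) * l) = nu p a b H * (∑ Q ∈ Rs, (Q.w : ℝ) * Q.l) +
      nu p a b H * (((Rin w l q).w : ℝ) * (Rin w l q).l) := by
    rw [← e4]
    ring
  rw [e5]
  linarith

/-- the decomposition of a cut -/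
theorem yy_le (hCUT : S_CUT) (hFLT : S_FLT) (hSUP : S_SUP) (ha : 0 < a) (hab : a < b)
    (hH : 1 ≤ H) (hs : 1 ≤ s)
    (hw : 8 * s ≤ w) (hl : 8 * s ≤ l) (h1 : q.1 < 2 * s) (h2 : q.2.1 < 2 * s)
    (h3 : q.2.2.1 < 2 * s) (h4 : q.2.2.2 < 2 * s)
    (hD : Dec w l s q Rs) {Tr : Set V} {AR δ : ℝ}
    (hTr : ∃ S0 : Set V, adm (Rin w l q) 0 (H : ℤ) S0 ∧ trc (Rin w l q) Tr S0 ∧
      ((cuts (Rin w l q) 0 (H : ℤ) S0).card : ℝ) ≤ AR) {S S' : Set V} (T : Finset Ed)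
    (hS : adm (sq w l) 0 (H : ℤ) S) (hS' : adm (Rin w l q) 0 (H : ℤ) S')
    (hS'T : trc (Rin w l q) Tr S')
    (hen : en a b T (Rin w l q) 0 (H : ℤ) S' ≤ en a b T (Rin w l q) 0 (H : ℤ) S + δ) :
    YY a b w l H q Rs Tr T ≤ en a b T (sq w l) 0 (H : ℤ) S + δ := by
  have hc := fun Q => hCUT a b Q 0 (H : ℤ) (PP (Rin w l q) Tr Q) (AQ (Rin w l q) AR Q) ha hab
    (by omega) (comp_ex hFLT hH hTr Q)
  have hne : (Rin w l q).cols.Nonempty := ⟨_, Rin_nonempty hs hw hl h1 h2 h3 h4⟩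
  have hsub := Rin_sub hw hl h1 h2 h3 h4
  have hsup := hSUP a b (sq w l) 0 (H : ℤ) (insert (Rin w l q) Rs) T S ha hab (by
    intro Q hQ
    rw [Finset.mem_insert] at hQ
    rcases hQ with rfl | hQ
    · exact hsub
    · exact (hD.cell Q hQ).1) (dec_disj hD)
  rw [Finset.sum_insert (dec_notMem hD hne)] at hsup
  have e0 : YY a b w l H q Rs Tr T =
      flowC a b (Rin w l q) 0 (H : ℤ) (PP (Rin w l q) Tr (Rin w l q)) T +
      ∑ Q ∈ Rs, flowC a b Q 0 (H : ℤ) (PP (Rin w l q) Tr Q) T := by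
    unfold YY
    rw [Finset.sum_insert (dec_notMem hD hne)]
  have e1 : flowC a b (Rin w l q) 0 (H : ℤ) (PP (Rin w l q) Tr (Rin w l q)) T ≤
      en a b T (Rin w l q) 0 (H : ℤ) S' :=
    (hc (Rin w l q)).2.1 T S' hS' (by rw [PP_self]; exact hS'T)
  have e2 : ∀ Q ∈ Rs, flowC a b Q 0 (H : ℤ) (PP (Rin w l q) Tr Q) T ≤
      en a b T Q 0 (H : ℤ) S := by
    intro Q hQ
    have hQne : Q ≠ Rin w l q := fun h => dec_notMem hD hne (h ▸ hQ)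
    exact (hc Q).2.1 T S (adm_mono (hD.cell Q hQ).1 hS) (by rw [PP_ne _ hQne]; trivial)
  have e3 := Finset.sum_le_sum e2
  have e4 : 0 ≤ a * ((cuts (sq w l) 0 (H : ℤ) S \ (insert (Rin w l q) Rs).biUnion
      (fun Q => eds Q 0 (H : ℤ))).card : ℝ) := mul_nonneg ha.le (Nat.cast_nonneg _)
  rw [e0]
  linarith

end Main

end Pool.SC.STP43

namespace Pool.SC

open Finset STP43

theorem stp_thm (hCUT : S_CUT) (hFLT : S_FLT) (hINV : S_INV) (hSUP : S_SUP) (hREF : S_REF)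
    (hCOA : S_COA) (hSEL : S_SEL) (hFRM : S_FRM) (hMN : S_MN) : S_STP := by
  intro p a b hp0 hp1 ha hab
  have hb : 0 < b := ha.trans hab
  obtain ⟨ρ, hρ⟩ : ∃ ρ : ℝ, ρ = b / a := ⟨_, rfl⟩
  have hρ1 : 1 ≤ ρ := by
    rw [hρ, le_div_iff₀ ha]
    linarith
  have hba : 0 < b - a := by linarith
  have h1p : 0 < 1 - p := by linarith
  obtain ⟨C', hC'⟩ : ∃ C' : ℝ, C' = 200 * (b - a) ^ 2 * ρ ^ 2 * (16 * ρ + 5) / (2 * (1 - p)) :=
    ⟨_, rfl⟩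
  have hC'0 : 0 ≤ C' := by rw [hC']; positivity
  refine ⟨192 * b * ρ + 2 * Real.sqrt C' + 1, by positivity, ?_⟩
  intro r s s' H Λ E hs' hss hr hH hE hΛ hlog hcell w l hw1 hw2 hl1 hl2
  have hs : 1 ≤ s := hs'.trans hss
  have hw : 8 * s ≤ w := hr.trans hw1
  have hl : 8 * s ≤ l := hr.trans hl1
  have hsR : (1 : ℝ) ≤ s := by exact_mod_cast hs
  have hs'R : (1 : ℝ) ≤ s' := by exact_mod_cast hs'
  have hssR : (s' : ℝ) ≤ s := by exact_mod_cast hss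
  have hrR : (1 : ℝ) ≤ r := by
    have : 1 ≤ r := by omega
    exact_mod_cast this
  have hw2R : (w : ℝ) ≤ 2 * r := by exact_mod_cast hw2.le
  have hl2R : (l : ℝ) ≤ 2 * r := by exact_mod_cast hl2.le
  obtain ⟨N, hN⟩ : ∃ N : ℝ, N = (w : ℝ) * l := ⟨_, rfl⟩
  have hN0 : 0 ≤ N := by rw [hN]; positivity
  have hN4 : N ≤ 4 * (r : ℝ) ^ 2 := by
    rw [hN]
    have := mul_le_mul hw2R hl2R (Nat.cast_nonneg l) (by positivity)
    nlinarith
  obtain ⟨A, hA⟩ : ∃ A : ℝ, A = b / a * N := ⟨_, rfl⟩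
  have hAρ : A = ρ * N := by rw [hA, hρ]
  have hA0 : 0 ≤ A := by rw [hAρ]; positivity
  obtain ⟨Pp, hPp⟩ : ∃ Pp : ℝ, Pp = 4 * A / s := ⟨_, rfl⟩
  have hPp0 : 0 ≤ Pp := by rw [hPp]; positivity
  obtain ⟨I0, hI0⟩ : ∃ I0 : Finset (ℕ × ℕ × ℕ × ℕ), I0 = Finset.Ico s (2 * s) ×ˢ
      (Finset.Ico s (2 * s) ×ˢ (Finset.Ico s (2 * s) ×ˢ Finset.Ico s (2 * s))) := ⟨_, rfl⟩
  have hmem : ∀ q : ℕ × ℕ × ℕ × ℕ, q ∈ I0 ↔ (s ≤ q.1 ∧ q.1 < 2 * s) ∧
      (s ≤ q.2.1 ∧ q.2.1 < 2 * s) ∧ (s ≤ q.2.2.1 ∧ q.2.2.1 < 2 * s) ∧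
      (s ≤ q.2.2.2 ∧ q.2.2.2 < 2 * s) := by
    intro q
    rw [hI0]
    simp only [Finset.mem_product, Finset.mem_Ico]
  have hI0c : I0.card = s ^ 4 := by
    rw [hI0]
    simp only [Finset.card_product, Nat.card_Ico]
    have : 2 * s - s = s := by omega
    rw [this]
    ring
  -- the frames
  have hR : ∀ q : ℕ × ℕ × ℕ × ℕ, ∃ Rs : Finset Rect, q ∈ I0 → Dec w l s q Rs := by
    intro q
    by_cases hq : q ∈ I0
    · obtain ⟨⟨a1, a2⟩, ⟨a3, a4⟩, ⟨a5, a6⟩, ⟨a7, a8⟩⟩ := (hmem q).1 hq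
      obtain ⟨Rs, k1, k2, k3, k4⟩ := hFRM w l s q.1 q.2.1 q.2.2.1 q.2.2.2 hs hw hl a1 a2 a3 a4 a5
        a6 a7 a8
      exact ⟨Rs, fun _ => ⟨k1, k2, k3, k4⟩⟩
    · exact ⟨∅, fun h => (hq h).elim⟩
  choose RS hRS using hR
  -- the traces
  have hJ : ∀ q : ℕ × ℕ × ℕ × ℕ, ∃ J : Finset (Set V), q ∈ I0 →
      (Real.log (J.card : ℝ) ≤ (Pp / s' + 1) *
        Real.log (2 + 2 * (((Rin w l q).w : ℝ) + (Rin w l q).l) * H)) ∧
      (∀ Tr ∈ J, ∃ S0 : Set V, adm (Rin w l q) 0 (H : ℤ) S0 ∧ trc (Rin w l q) Tr S0 ∧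
        ((cuts (Rin w l q) 0 (H : ℤ) S0).card : ℝ) ≤ A + 12 * s' * Pp) ∧
      (∀ S : Set V, adm (Rin w l q) 0 (H : ℤ) S →
        ((bcuts (Rin w l q) 0 (H : ℤ) S).card : ℝ) ≤ Pp →
        ((cuts (Rin w l q) 0 (H : ℤ) S).card : ℝ) ≤ A →
        ∃ Tr ∈ J, ∃ S' : Set V, adm (Rin w l q) 0 (H : ℤ) S' ∧ trc (Rin w l q) Tr S' ∧
          ∀ (a b : ℝ) (T : Finset Ed), 0 < a → a < b →
            en a b T (Rin w l q) 0 (H : ℤ) S' ≤ en a b T (Rin w l q) 0 (H : ℤ) S +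
              12 * b * s' * Pp) := by
    intro q
    by_cases hq : q ∈ I0
    · obtain ⟨⟨a1, a2⟩, ⟨a3, a4⟩, ⟨a5, a6⟩, ⟨a7, a8⟩⟩ := (hmem q).1 hq
      obtain ⟨J, k1, k2, k3⟩ := hCOA (Rin w l q) H s' Pp A hH hs'
        (by show 4 * s' ≤ w - q.1 - q.2.1; omega)
        (by show 4 * s' ≤ l - q.2.2.1 - q.2.2.2; omega) hPp0 hA0
      exact ⟨J, fun _ => ⟨k1, k2, k3⟩⟩
    · exact ⟨∅, fun h => (hq h).elim⟩
  choose JJ hJJ using hJ
  have hlogr : (0 : ℝ) ≤ Λ ^ 2 := by positivity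
  have hPs : 0 ≤ Pp / s' := by positivity
  have hcard : Real.log (((I0.sigma JJ).card : ℕ) : ℝ) ≤
      (16 * ρ + 5) * ((r : ℝ) ^ 2 / (s * s') + 1) * Λ ^ 2 := by
    have k1 : ∀ q ∈ I0, Real.log ((JJ q).card : ℝ) ≤ (Pp / s' + 1) * Λ ^ 2 := by
      intro q hq
      refine ((hJJ q hq).1).trans ?_
      refine mul_le_mul_of_nonneg_left ?_ (by positivity)
      refine le_trans (Real.log_le_log (by positivity) ?_) hlog
      have m1 : ((Rin w l q).w : ℝ) ≤ w := by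
        have : (Rin w l q).w ≤ w := by
          show w - q.1 - q.2.1 ≤ w
          omega
        exact_mod_cast this
      have m2 : ((Rin w l q).l : ℝ) ≤ l := by
        have : (Rin w l q).l ≤ l := by
          show l - q.2.2.1 - q.2.2.2 ≤ l
          omega
        exact_mod_cast this
      have m3 : ((Rin w l q).w : ℝ) + (Rin w l q).l ≤ 4 * r := by linarith
      have m4 : (0 : ℝ) ≤ H := Nat.cast_nonneg _
      have := mul_le_mul_of_nonneg_right m3 m4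
      linarith
    have k2 := log_card I0 JJ ((Pp / s' + 1) * Λ ^ 2) (by positivity) k1
    have k3 : Real.log (I0.card : ℝ) ≤ 4 * Λ ^ 2 := by
      rw [hI0c]
      push_cast
      rw [Real.log_pow]
      push_cast
      have : Real.log (s : ℝ) ≤ Λ ^ 2 := by
        refine le_trans (Real.log_le_log (by linarith) ?_) hlog
        have m1 : (s : ℝ) ≤ r := by
          have : s ≤ r := by omega
          exact_mod_cast this
        have m2 : (1 : ℝ) ≤ H := by exact_mod_cast hH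
        nlinarith
      linarith
    have k4 : Pp / s' ≤ 16 * ρ * ((r : ℝ) ^ 2 / (s * s')) := by
      have : Pp / s' = 4 * ρ * (N / (s * s')) := by
        rw [hPp, hAρ]
        field_simp
      rw [this]
      have m1 : N / ((s : ℝ) * s') ≤ 4 * (r : ℝ) ^ 2 / (s * s') :=
        div_le_div_of_nonneg_right hN4 (by positivity)
      have m2 : 4 * ρ * (N / ((s : ℝ) * s')) ≤ 4 * ρ * (4 * (r : ℝ) ^ 2 / (s * s')) :=
        mul_le_mul_of_nonneg_left m1 (by positivity)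
      refine m2.trans (le_of_eq ?_)
      ring
    have k5 : 0 ≤ (r : ℝ) ^ 2 / (s * s') := by positivity
    calc Real.log (((I0.sigma JJ).card : ℕ) : ℝ) ≤ 4 * Λ ^ 2 + (Pp / s' + 1) * Λ ^ 2 := by
          linarith
      _ = (Pp / s' + 5) * Λ ^ 2 := by ring
      _ ≤ ((16 * ρ + 5) * ((r : ℝ) ^ 2 / (s * s') + 1)) * Λ ^ 2 := by
          refine mul_le_mul_of_nonneg_right ?_ hlogr
          nlinarith
  obtain ⟨AR, hAR⟩ : ∃ AR : ℝ, AR = A + 12 * s' * Pp := ⟨_, rfl⟩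
  have hs'P : (s' : ℝ) * Pp ≤ 4 * A := by
    rw [hPp]
    have m1 : (s' : ℝ) * (4 * A / s) = 4 * A * (s' / s) := by ring
    rw [m1]
    have m2 : (s' : ℝ) / s ≤ 1 := by
      rw [div_le_one (by linarith)]
      exact hssR
    nlinarith
  have hY : ∀ j ∈ I0.sigma JJ,
      (∀ T ⊆ eds (sq w l) 0 (H : ℤ), ∀ e ∈ eds (sq w l) 0 (H : ℤ),
        0 ≤ gr e (YY a b w l H j.1 (RS j.1) j.2) T) ∧
      (∀ T ⊆ eds (sq w l) 0 (H : ℤ), ∑ e ∈ eds (sq w l) 0 (H : ℤ) \ T,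
        gr e (YY a b w l H j.1 (RS j.1) j.2) T ^ 2 ≤
          200 * (b - a) ^ 2 * ρ ^ 2 * (r : ℝ) ^ 2) ∧
      nu p a b H * ((w : ℝ) * l) - 16 * (r / s) * E ≤
        ex p (eds (sq w l) 0 (H : ℤ)) (YY a b w l H j.1 (RS j.1) j.2) := by
    rintro ⟨q, Tr⟩ hj
    rw [Finset.mem_sigma] at hj
    obtain ⟨hq, hTrJ⟩ := hj
    have hq' : q ∈ I0 := hq
    have hTrJ' : Tr ∈ JJ q := hTrJ
    obtain ⟨⟨a1, a2⟩, ⟨a3, a4⟩, ⟨a5, a6⟩, ⟨a7, a8⟩⟩ := (hmem q).1 hq'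
    have hD := hRS q hq'
    have hTr : ∃ S0 : Set V, adm (Rin w l q) 0 (H : ℤ) S0 ∧ trc (Rin w l q) Tr S0 ∧
        ((cuts (Rin w l q) 0 (H : ℤ) S0).card : ℝ) ≤ AR := by
      rw [hAR]
      exact (hJJ q hq').2.1 Tr hTrJ'
    obtain ⟨g1, g2⟩ := yy_gr hCUT hFLT ha hab hH hD hTr
    refine ⟨fun T _ e _ => g1 T e, fun T _ => (g2 _ T).trans ?_, ?_⟩
    · have hne : (Rin w l q).cols.Nonempty := ⟨_, Rin_nonempty hs hw hl a2 a4 a6 a8⟩
      have hnm := dec_notMem hD hne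
      rw [Finset.sum_insert hnm]
      have m1 : AQ (Rin w l q) AR (Rin w l q) = AR := by rw [AQ, if_pos rfl]
      have m2 : ∑ Q ∈ RS q, (b - a) ^ 2 * (b / a * AQ (Rin w l q) AR Q) =
          (b - a) ^ 2 * (b / a * ∑ Q ∈ RS q, (Q.w : ℝ) * Q.l) := by
        rw [Finset.mul_sum, Finset.mul_sum]
        refine Finset.sum_congr rfl fun Q hQ => ?_
        have : Q ≠ Rin w l q := fun h => hnm (h ▸ hQ)
        rw [AQ, if_neg this]
      have m3 : ∑ Q ∈ RS q, (Q.w : ℝ) * Q.l ≤ N := by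
        have := hD.area
        have m4 : (∑ Q ∈ RS q, (Q.w : ℝ) * Q.l) + ((Rin w l q).w : ℝ) * (Rin w l q).l =
            (w : ℝ) * l := by exact_mod_cast this
        have m5 : (0 : ℝ) ≤ ((Rin w l q).w : ℝ) * (Rin w l q).l := by positivity
        rw [hN]
        linarith
      rw [m1, m2, ← hρ]
      have m6 : AR + ∑ Q ∈ RS q, (Q.w : ℝ) * Q.l ≤ 200 * ρ * (r : ℝ) ^ 2 := by
        have m7 : N ≤ A := by
          rw [hAρ]
          nlinarith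
        have m8 : AR ≤ 49 * A := by
          rw [hAR]
          linarith
        have m9 : A ≤ ρ * (4 * (r : ℝ) ^ 2) := by
          rw [hAρ]
          exact mul_le_mul_of_nonneg_left hN4 (by linarith)
        linarith
      calc (b - a) ^ 2 * (ρ * AR) + (b - a) ^ 2 * (ρ * ∑ Q ∈ RS q, (Q.w : ℝ) * Q.l) =
            ((b - a) ^ 2 * ρ) * (AR + ∑ Q ∈ RS q, (Q.w : ℝ) * Q.l) := by ring
        _ ≤ ((b - a) ^ 2 * ρ) * (200 * ρ * (r : ℝ) ^ 2) :=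
            mul_le_mul_of_nonneg_left m6 (by positivity)
        _ = _ := by ring
    · have hmean := yy_mean hCUT hFLT hINV hREF hp0 hp1 ha hab hH hs hw hl a2 a4 a6 a8 hD hTr
        hcell
      refine le_trans ?_ hmean
      have m1 : ((RS q).card : ℝ) * s ≤ 16 * r := by
        have m2 : ((RS q).card : ℝ) * s ≤ 4 * (w + l) := by exact_mod_cast hD.num
        linarith
      have m3 : ((RS q).card : ℝ) ≤ 16 * (r / s) := by
        rw [← mul_div_assoc, le_div_iff₀ (by linarith)]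
        exact m1
      have := mul_le_mul_of_nonneg_right m3 hE
      linarith
  have hmin : ∀ T ⊆ eds (sq w l) 0 (H : ℤ), ∃ j ∈ I0.sigma JJ,
      YY a b w l H j.1 (RS j.1) j.2 T ≤ flow a b (sq w l) 0 (H : ℤ) T + 12 * b * s' * Pp := by
    intro T _
    obtain ⟨S, k1, _, k3, k4⟩ := (hCUT a b (sq w l) 0 (H : ℤ) (fun _ => True) N ha hab
      (by omega) (by
        obtain ⟨S0, c1, c2⟩ := hFLT (sq w l) 0 (H : ℤ) (by omega)
        refine ⟨S0, c1, trivial, ?_⟩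
        rw [hN]
        exact c2)).1 T
    rw [← hA] at k4
    obtain ⟨i, u, j, v, a1, a2, a3, a4, a5, a6, a7, a8, hbc⟩ := hSEL w l s H S hs hw hl
    have hq : ((i, u, j, v) : ℕ × ℕ × ℕ × ℕ) ∈ I0 :=
      (hmem _).2 ⟨⟨a1, a2⟩, ⟨a3, a4⟩, ⟨a5, a6⟩, ⟨a7, a8⟩⟩
    have hsub := Rin_sub (q := (i, u, j, v)) hw hl a2 a4 a6 a8
    have hb1 : ((bcuts (Rin w l (i, u, j, v)) 0 (H : ℤ) S).card : ℝ) ≤ Pp := by
      rw [hPp, le_div_iff₀ (by linarith)]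
      have m1 : ((bcuts (Rin w l (i, u, j, v)) 0 (H : ℤ) S).card : ℝ) * s ≤
          4 * ((cuts (sq w l) 0 (H : ℤ) S).card : ℝ) := by exact_mod_cast hbc
      linarith
    have hb2 : ((cuts (Rin w l (i, u, j, v)) 0 (H : ℤ) S).card : ℝ) ≤ A := by
      have m1 := Finset.card_le_card (cuts_mono hsub 0 (H : ℤ) S)
      have m2 : ((cuts (Rin w l (i, u, j, v)) 0 (H : ℤ) S).card : ℝ) ≤
          ((cuts (sq w l) 0 (H : ℤ) S).card : ℝ) := by exact_mod_cast m1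
      exact m2.trans k4
    obtain ⟨Tr, hTrJ, S', t1, t2, t3⟩ := (hJJ _ hq).2.2 S (adm_mono hsub k1) hb1 hb2
    refine ⟨⟨(i, u, j, v), Tr⟩, Finset.mem_sigma.2 ⟨hq, hTrJ⟩, ?_⟩
    have hTr : ∃ S0 : Set V, adm (Rin w l (i, u, j, v)) 0 (H : ℤ) S0 ∧
        trc (Rin w l (i, u, j, v)) Tr S0 ∧
        ((cuts (Rin w l (i, u, j, v)) 0 (H : ℤ) S0).card : ℝ) ≤ AR := by
      rw [hAR]
      exact (hJJ _ hq).2.1 Tr hTrJ
    have hle := yy_le hCUT hFLT hSUP ha hab hH hs hw hl a2 a4 a6 a8 (hRS _ hq) hTr T k1 t1 t2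
      (t3 a b T ha hab)
    rw [k3] at hle
    exact hle
  have hmn := hMN Ed p hp0 hp1 (eds (sq w l) 0 (H : ℤ)) (Σ _ : ℕ × ℕ × ℕ × ℕ, Set V)
    (I0.sigma JJ) (fun j => YY a b w l H j.1 (RS j.1) j.2)
    (fun T => flow a b (sq w l) 0 (H : ℤ) T + 12 * b * s' * Pp)
    (nu p a b H * ((w : ℝ) * l) - 16 * (r / s) * E)
    (200 * (b - a) ^ 2 * ρ ^ 2 * (r : ℝ) ^ 2)
    ((16 * ρ + 5) * ((r : ℝ) ^ 2 / (s * s') + 1) * Λ ^ 2) (by positivity) (by positivity)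
    hcard hY hmin
  rw [ex_add, ex_const] at hmn
  have hsq : Real.sqrt (200 * (b - a) ^ 2 * ρ ^ 2 * (r : ℝ) ^ 2 *
      ((16 * ρ + 5) * ((r : ℝ) ^ 2 / (s * s') + 1) * Λ ^ 2) / (2 * (1 - p))) =
      Real.sqrt C' * (r * Real.sqrt ((r : ℝ) ^ 2 / (s * s') + 1) * Λ) := by
    have e1 : 200 * (b - a) ^ 2 * ρ ^ 2 * (r : ℝ) ^ 2 *
      ((16 * ρ + 5) * ((r : ℝ) ^ 2 / (s * s') + 1) * Λ ^ 2) / (2 * (1 - p)) =
        C' * (((r : ℝ) ^ 2 / (s * s') + 1) * (r * Λ) ^ 2) := by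
      rw [hC']
      ring
    rw [e1, Real.sqrt_mul hC'0, Real.sqrt_mul (by positivity), Real.sqrt_sq (by positivity)]
    ring
  rw [hsq] at hmn
  have hph : ex p (eds (sq w l) 0 (H : ℤ)) (flow a b (sq w l) 0 (H : ℤ)) = ph p a b w l H := rfl
  have hph' : ex p (eds (sq w l) 0 (H : ℤ)) (fun s => flow a b (sq w l) 0 (H : ℤ) s) =
      ph p a b w l H := rfl
  rw [hph'] at hmn
  have hlast : 12 * b * s' * Pp ≤ 192 * b * ρ * (s' * (r : ℝ) ^ 2 / s) := by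
    have e1 : 12 * b * s' * Pp = 48 * b * ρ * (s' / s) * N := by
      rw [hPp, hAρ]
      field_simp
      ring
    rw [e1]
    have m1 : 48 * b * ρ * ((s' : ℝ) / s) * N ≤ 48 * b * ρ * (s' / s) * (4 * (r : ℝ) ^ 2) :=
      mul_le_mul_of_nonneg_left hN4 (by positivity)
    refine m1.trans (le_of_eq ?_)
    ring
  have n1 : 0 ≤ (s' : ℝ) * (r : ℝ) ^ 2 / s := by positivity
  have n2 : 0 ≤ (r : ℝ) * Real.sqrt ((r : ℝ) ^ 2 / (s * s') + 1) * Λ := by positivity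
  have n3 : 0 ≤ Real.sqrt C' := Real.sqrt_nonneg _
  have n4 : 0 ≤ 192 * b * ρ := by positivity
  nlinarith [mul_nonneg n3 n1, mul_nonneg n4 n2]

end Pool.SC
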